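import Pool.Agent.Helper59.AN.Goals2
import Pool.Agent.Helper97.NU.OMG
import Pool.Agent.Helper60.NU.EX1
import Pool.Agent.Helper30.NU.NAT

/-!
# MP_4137ca_lc, packet PHC: the value of the second statement is one
-/

noncomputable section

namespace AN.PkPHC

open Pool.Agent.Helper97.Ku NU BSet AN

theorem iffV_symm' {L : Type} [CompleteBooleanAlgebra L] (a b : L) : iffV a b = iffV b a := by
  unfold iffV; exact inf_comm _ _

theorem iffV_self {L : Type} [CompleteBooleanAlgebra L] (a : L) : iffV a a = ⊤ := by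
  unfold iffV; rw [himp_self, inf_top_eq]

theorem xr_compl {L : Type} [CompleteBooleanAlgebra L] {y : (ℕ → L) → L} (hy : XR y) :
    XR (fun a => (y a)ᶜ) := by
  intro a b
  have h := hy b a
  have e : (⨅ n, iffV (a n) (b n)) = ⨅ n, iffV (b n) (a n) :=
    iInf_congr fun n => iffV_symm' _ _
  show (⨅ n, iffV (a n) (b n)) ⊓ (y a)ᶜ ≤ (y b)ᶜ
  rw [e, le_compl_iff_disjoint_right, disjoint_iff, eq_bot_iff]
  calc (⨅ n, iffV (b n) (a n)) ⊓ (y a)ᶜ ⊓ y b
      = ((⨅ n, iffV (b n) (a n)) ⊓ y b) ⊓ (y a)ᶜ := by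
        rw [inf_assoc, inf_comm (y a)ᶜ, ← inf_assoc]
    _ ≤ y a ⊓ (y a)ᶜ := inf_le_inf_right _ h
    _ = ⊥ := inf_compl_self _
    _ ≤ ⊥ := le_rfl

theorem xr_iSup {L : Type} [CompleteBooleanAlgebra L] {c : ℕ → L} {y : ℕ → (ℕ → L) → L}
    (hy : ∀ n, XR (y n)) : XR (fun a => ⨆ n, (c n ⊓ y n a)) := by
  intro a b
  show (⨅ n, iffV (a n) (b n)) ⊓ (⨆ n, (c n ⊓ y n a)) ≤ ⨆ n, (c n ⊓ y n b)
  rw [inf_iSup_eq]
  refine iSup_mono fun n => ?_
  refine le_inf (le_trans inf_le_right inf_le_left) ?_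
  refine le_trans ?_ (hy n a b)
  exact inf_le_inf_left _ inf_le_right

theorem phc (comb2 : G_COMB2) (cov : G_COV) (card : G_CARD) (val : G_VAL) (eqq : G_EQ)
    (ana : G_ANA) (sig : G_SIG) (rq : G_RQ) (rn : G_RN) (ccc : G_CCC) (ext : G_EXT) : G_PHC := by
  intro X _ hX R
  have hccc := ccc X R (Ix X)
  have hcard := card X hX R hccc
  obtain ⟨-, -, -, -, rq5, rq6⟩ := rq (RO (Cd R (Ix X)))
  obtain ⟨-, -, rn3, -, -⟩ := rn (RO (Cd R (Ix X)))
  obtain ⟨-, -, ext3, -⟩ := ext (RO (Cd R (Ix X)))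
  rw [phiCV, eq_top_iff]
  refine le_trans ?_ (le_iSup _ omN)
  refine le_inf (top_le_iff.mpr (NU.PkOMG.omg NU.PkNAT.nat _)) ?_
  refine le_iInf fun U => ?_
  rw [le_himp_iff, top_inf_eq]
  refine le_iInf fun R' => ?_
  by_contra hcon
  have hne : (injV (fun x => subV x omN) (fun u => u.mem U))ᶜ ⊓ (exV omN U R')ᶜ ≠ ⊥ := by
    intro h
    apply hcon
    rw [← disjoint_iff, disjoint_compl_right_iff] at h
    exact h
  obtain ⟨b', hb'b, hb'ne, ι, u, hι, hcov⟩ := cov (RO (Cd R (Ix X))) (Ix X) hcard U _ hne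
    inf_le_left
  obtain ⟨i, F, ⟨f0, hf0⟩, hFv, hFc, hFu, hFg⟩ := comb2 X hX R ι hι
    (fun j x => apV R' (u j) (rN (ch (R.r x))))
  obtain ⟨γ, hγ⟩ := val (RO (Cd R (Ix X))) (fun s σ => gv R (Vx.a i s σ))
  have hbeta : ∀ x : X, beta γ (ch (R.r x)) = gv R (Vx.g i x []) := by
    intro x
    refine hγ (R.r x) (fun s => gv R (Vx.g i x s)) ?_ ?_ ?_
    · refine Subrelation.wf (r := InvImage (fun x y : X => x < y) (R.rk x)) ?_
        (InvImage.wf (R.rk x) hX.wf)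
      intro t s hts
      obtain ⟨h1, n, rfl⟩ := hts
      exact R.lt x s n ((R.cod x s).mp h1)
    · intro s hs
      exact (eqq X R (Ix X) i x s).1 ((R.cod x s).mp hs)
    · intro s hs
      exact (eqq X R (Ix X) i x s).2 (fun h => hs ((R.cod x s).mpr h))
  obtain ⟨hXR, hana⟩ := ana (RO (Cd R (Ix X))) γ
  have hbot : (fun _ : X => (⊥ : RO (Cd R (Ix X)))) ∈ F := by
    have h := hFu (fun _ => ⊥) (fun _ => f0) (fun _ => hf0)
    have e : (fun x : X => ⨆ _ : ℕ, ((⊥ : RO (Cd R (Ix X))) ⊓ f0 x)) = fun _ => ⊥ := by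
      funext x
      rw [bot_inf_eq]
      exact iSup_bot
    rw [e] at h
    exact h
  have hsig : sigV omN (SN {y : (ℕ → RO (Cd R (Ix X))) → RO (Cd R (Ix X)) |
      XR y ∧ (fun x => y (ch (R.r x))) ∈ F}) = ⊤ := by
    refine sig _ hccc _ ?_ ?_ ?_ ?_
    · exact ⟨fun _ => ⊥, fun a b => inf_le_right, hbot⟩
    · intro y hy; exact hy.1
    · intro y hy; exact ⟨xr_compl hy.1, hFc _ hy.2⟩
    · intro c y hy
      exact ⟨xr_iSup fun n => (hy n).1, hFu c (fun n x => y n (ch (R.r x))) fun n => (hy n).2⟩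
  have hBS : (YN (beta γ) : BSet (RO (Cd R (Ix X)))).mem (SN {y : (ℕ → RO (Cd R (Ix X))) →
      RO (Cd R (Ix X)) | XR y ∧ (fun x => y (ch (R.r x))) ∈ F}) = ⊥ := by
    rw [SN, mem_mk, eq_bot_iff]
    refine iSup_le fun y => ?_
    refine le_trans inf_le_right ?_
    rw [rq5 (beta γ) y.1 hXR y.2.1]
    refine le_trans ?_ (le_of_eq (hFg _ y.2.2))
    refine le_iInf fun x => ?_
    refine le_trans (iInf_le _ (ch (R.r x))) ?_
    rw [hbeta x]
  have hyV : ∀ j, XR (fun a => apV R' (u j) (rN a)) := by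
    intro j a b
    show (⨅ n, iffV (a n) (b n)) ⊓ apV R' (u j) (rN a) ≤ apV R' (u j) (rN b)
    rw [← rn3 a b]
    exact ((NU.PkEX1.ex1 (RO (Cd R (Ix X)))).2.1 R' (u j)).2.2 (rN a) (rN b)
  have hsec : ∀ (x : BSet (RO (Cd R (Ix X)))) (j : ι), x.eq (u j) ≤
      secV omN R' x (YN fun a => apV R' (u j) (rN a)) := by
    intro x j
    have e1 : secV omN R' (u j) (YN fun a => apV R' (u j) (rN a)) = ⊤ := by
      unfold secV
      rw [rq6 (fun a => apV R' (u j) (rN a)) (fun x => apV R' (u j) x) (hyV j)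
        ((NU.PkEX1.ex1 (RO (Cd R (Ix X)))).2.1 R' (u j)).2.2]
      rw [eq_top_iff]
      refine le_iInf fun a => ?_
      rw [iffV_self]
    have e2 := (ext3 omN R' (u j) (YN fun a => apV R' (u j) (rN a))).1 (u j) x
    have e3 : (u j).eq x ⊓ secV omN R' (u j) (YN fun a => apV R' (u j) (rN a)) ≤
      secV omN R' x (YN fun a => apV R' (u j) (rN a)) := e2
    rw [e1, inf_top_eq, eq_comm'] at e3
    exact e3
  have hex : b' ≤ exV omN U R' := by
    unfold exV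
    refine le_trans ?_ (le_iSup _ (YN (beta γ)))
    refine le_inf (by rw [hana]; exact le_top) ?_
    refine le_trans ?_ (le_iSup _ (SN {y : (ℕ → RO (Cd R (Ix X))) →
      RO (Cd R (Ix X)) | XR y ∧ (fun x => y (ch (R.r x))) ∈ F}))
    refine le_inf (by rw [hsig]; exact le_top) (le_inf ?_ ?_)
    · refine le_iInf fun x => ?_
      rw [le_himp_iff]
      refine le_trans (hcov x) (iSup_le fun j => ?_)
      refine le_trans ?_ (le_iSup _ (YN fun a => apV R' (u j) (rN a)))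
      refine le_inf ?_ (hsec x j)
      rw [SN, mem_mk]
      refine le_trans ?_ (le_iSup _ ⟨fun a => apV R' (u j) (rN a), hyV j, hFv j⟩)
      rw [BSet.eq_refl, inf_top_eq]
      exact le_top
    · rw [hBS, compl_bot]
      exact le_top
  apply hb'ne
  rw [eq_bot_iff]
  calc b' ≤ exV omN U R' ⊓ (exV omN U R')ᶜ := le_inf hex (le_trans hb'b inf_le_right)
    _ = ⊥ := inf_compl_self _

end AN.PkPHC
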