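import Pool.Agent.Helper59.AN.Goals

/-!
# MP_4137ca_lc, packet RQ: quantifiers over reals, and names of sets of reals
-/

noncomputable section

namespace AN.PkRQ

open Pool.Agent.Helper97.Ku NU BSet AN

theorem iffV_symm {L : Type} [CompleteBooleanAlgebra L] (a b : L) : iffV a b = iffV b a := by
  unfold iffV; exact inf_comm _ _

theorem iffV_mp {L : Type} [CompleteBooleanAlgebra L] (a b : L) : iffV a b ⊓ a ≤ b := by
  unfold iffV
  exact le_trans (inf_le_inf_right _ inf_le_left) himp_inf_le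

theorem iffV_mpr {L : Type} [CompleteBooleanAlgebra L] (a b : L) : iffV a b ⊓ b ≤ a := by
  unfold iffV
  exact le_trans (inf_le_inf_right _ inf_le_right) himp_inf_le

theorem ext_sub {L : Type} [CompleteBooleanAlgebra L] (a : BSet L) :
    BSet.Ext (fun x => subV x a) :=
  BSet.Ext.iInf fun t => BSet.Ext.himp (BSet.Ext.mem_right t) (BSet.Ext.const _)

theorem rq (rn : G_RN) : G_RQ := by
  intro L _
  obtain ⟨r1, r2, r3, r4, -⟩ := rn L
  have h3 : ∀ (y : (ℕ → L) → L) (a : ℕ → L), XR y → (rN a).mem (YN y) = y a := by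
    intro y a hy
    unfold YN
    rw [mem_mk]
    apply le_antisymm
    · refine iSup_le fun b => ?_
      rw [r3, inf_comm]
      refine le_trans ?_ (hy b a)
      refine inf_le_inf_right _ (iInf_mono fun n => ?_)
      rw [iffV_symm]
    · refine le_trans ?_ (le_iSup _ a)
      rw [BSet.eq_refl, inf_top_eq]
  have h4 : ∀ (y : (ℕ → L) → L) (x : BSet L), x.mem (YN y) ≤ subV x omN := by
    intro y x
    unfold YN
    rw [mem_mk]
    refine iSup_le fun b => ?_
    refine le_trans ?_ (ext_sub omN (rN b) x)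
    show _ ≤ (rN b).eq x ⊓ subV (rN b) omN
    rw [r2, inf_top_eq, eq_comm' (rN b) x]
    exact inf_le_right
  have hx1 : ∀ (φ : BSet L → L), BSet.Ext φ → ∀ x : BSet L,
      subV x omN ⊓ φ (rN fun n => (nn n).mem x) ≤ φ x := by
    intro φ hφ x
    refine le_trans ?_ (hφ (rN fun n => (nn n).mem x) x)
    rw [eq_comm' (rN fun n => (nn n).mem x) x]
    exact inf_le_inf_right _ (r4 x)
  have hx2 : ∀ (φ : BSet L → L), BSet.Ext φ → ∀ x : BSet L,
      subV x omN ⊓ φ x ≤ φ (rN fun n => (nn n).mem x) := by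
    intro φ hφ x
    refine le_trans ?_ (hφ x (rN fun n => (nn n).mem x))
    exact inf_le_inf_right _ (r4 x)
  refine ⟨?_, ?_, h3, ?_, ?_, ?_⟩
  · intro φ hφ
    apply le_antisymm
    · refine le_iInf fun a => ?_
      refine le_trans (iInf_le _ (rN a)) ?_
      rw [r2, top_himp]
    · refine le_iInf fun x => ?_
      rw [le_himp_iff, inf_comm]
      refine le_trans ?_ (hx1 φ hφ x)
      exact inf_le_inf_left _ (iInf_le _ _)
  · intro φ hφ
    apply le_antisymm
    · refine iSup_le fun x => ?_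
      exact le_trans (hx2 φ hφ x) (le_iSup (fun a : ℕ → L => φ (rN a)) _)
    · refine iSup_le fun a => ?_
      refine le_trans ?_ (le_iSup _ (rN a))
      rw [r2, top_inf_eq]
  · intro y _
    unfold realsV
    refine le_antisymm le_top (le_iInf fun x => ?_)
    rw [le_himp_iff, top_inf_eq]
    exact h4 y x
  · intro y z hy hz
    have e1 : (YN y : BSet L).eq (YN z) = (⨅ a, (y a ⇨ (rN a).mem (YN z))) ⊓
        (⨅ a, (z a ⇨ (rN a).mem (YN y))) := eq_mk' _ _ _ _ _ _
    rw [e1, ← iInf_inf_eq]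
    refine iInf_congr fun a => ?_
    rw [h3 z a hz, h3 y a hy]
    rfl
  · intro y φ hy hφ
    apply le_antisymm
    · refine le_iInf fun a => ?_
      refine le_trans (iInf_le _ (rN a)) ?_
      rw [h3 y a hy, r2, top_inf_eq]
    · refine le_iInf fun x => ?_
      have p1 : (⨅ a : ℕ → L, iffV (y a) (φ (rN a))) ⊓ x.mem (YN y) ≤
          subV x omN ⊓ φ x := by
        refine le_inf (le_trans inf_le_right (h4 y x)) ?_
        have e1 : x.mem (YN y) = ⨆ b, (y b ⊓ x.eq (rN b)) := mem_mk _ _ _ _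
        rw [e1, inf_iSup_eq]
        refine iSup_le fun b => ?_
        refine le_trans ?_ (hφ (rN b) x)
        refine le_inf ?_ ?_
        · rw [eq_comm' (rN b) x]
          exact le_trans inf_le_right inf_le_right
        · refine le_trans ?_ (iffV_mp (y b) (φ (rN b)))
          exact inf_le_inf (iInf_le _ b) inf_le_left
      have p2 : (⨅ a : ℕ → L, iffV (y a) (φ (rN a))) ⊓ (subV x omN ⊓ φ x) ≤
          x.mem (YN y) := by
        have q1 : (⨅ a : ℕ → L, iffV (y a) (φ (rN a))) ⊓ (subV x omN ⊓ φ x) ≤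
            subV x omN ⊓ (rN fun n => (nn n).mem x).mem (YN y) := by
          refine le_inf (le_trans inf_le_right inf_le_left) ?_
          rw [h3 y _ hy]
          refine le_trans ?_ (iffV_mpr (y fun n => (nn n).mem x)
            (φ (rN fun n => (nn n).mem x)))
          exact inf_le_inf (iInf_le _ _) (hx2 φ hφ x)
        refine le_trans q1 ?_
        exact hx1 (fun t => t.mem (YN y)) (BSet.Ext.mem_left _) x
      change _ ≤ (x.mem (YN y) ⇨ subV x omN ⊓ φ x) ⊓ (subV x omN ⊓ φ x ⇨ x.mem (YN y))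
      exact le_inf (le_himp_iff.mpr p1) (le_himp_iff.mpr p2)

end AN.PkRQ
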